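import Pool.Agent.Helper21.TG2.HeightL

/-!
# Project TG2: counting at periodic points over all number fields containing `K` (helper21)
-/

set_option autoImplicit false

namespace Pool.Agent.Helper21.TG2

open Height AdmissibleAbsValues MvPolynomial NumberField
open Pool.Agent.Helper36 (step iter iter_zero iter_succ iter_add aeval_smul_homogeneous)
open Pool.Agent.Helper29.TG
open Pool.Agent.Helper30.TP (IsEndo)
open Pool.Agent.Helper63.TK (homog_of_endo growth_aeval_zero)

section

variable {K : Type} [Field K]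

theorem iter_smulL {d : ℕ} {F : Fin 3 → MvPolynomial (Fin 3) K}
    (hF : ∀ i, (F i).IsHomogeneous d) {L : Type} [Field L] [Algebra K L]
    (c : L) (y : Fin 3 → L) (n : ℕ) : iter F (c • y) n = c ^ d ^ n • iter F y n := by
  induction n with
  | zero => simp [iter_zero]
  | succ n ih =>
    rw [iter_succ, iter_succ, ih]
    funext i
    rw [Pi.smul_apply, smul_eq_mul, pow_succ, pow_mul]
    exact aeval_smul_homogeneous (hF i) (c ^ d ^ n) (iter F y n)

variable [NumberField K] [Algebra K ℂ]

/-- The defects of a form at the points of the orbit of a periodic point. -/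
theorem exists_count_bound {d : ℕ} {F : Fin 3 → MvPolynomial (Fin 3) K}
    (hF : IsEndo d fun i => map (algebraMap K ℂ) (F i))
    {h : MvPolynomial (Fin 3) K} {D : ℕ} (hh : h.IsHomogeneous D) :
    ∃ C : ℝ, 0 ≤ C ∧ ∀ (L : Type) [Field L] [NumberField L] [Algebra K L]
      (w : Fin 3 → L) (N : ℕ) (γ : L), w ≠ 0 → 0 < N →
      iter F w N = γ • w → ∀ l, eval (iter F w l) (map (algebraMap K L) h) ≠ 0 →
      ∀ T : Finset (AbsoluteValue L ℝ), (∀ v ∈ T, v ∈ nonarchAbsVal (K := L)) →
        ∑ v ∈ T, df v (map (algebraMap K L) h) D (iter F w l) ≤ C * Module.finrank ℚ L := by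
  obtain ⟨C1, hC1, h1⟩ := exists_ht_bound hF
  obtain ⟨C2, hC2, h2⟩ := exists_sum_df_le hh
  refine ⟨D * C1 + C2, by positivity, ?_⟩
  intro L _ _ _ w N γ hw hN hper l hl T hT
  have hwl : iter F w l ≠ 0 := iter_ne_zeroL hF hw l
  have hper' : iter F (iter F w l) N = γ ^ d ^ l • iter F w l := by
    rw [← iter_add, add_comm N l, iter_add, hper, iter_smulL fun i => homog_of_endo hF i]
  have h3 := h1 L (iter F w l) N _ hwl hN hper'
  have h4 := h2 L (iter F w l) hwl hl T hT
  have h5 : (D : ℝ) * logHeight (iter F w l) ≤ D * (C1 * Module.finrank ℚ L) :=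
    mul_le_mul_of_nonneg_left h3 (Nat.cast_nonneg _)
  calc ∑ v ∈ T, df v (map (algebraMap K L) h) D (iter F w l)
      ≤ D * logHeight (iter F w l) + C2 * Module.finrank ℚ L := h4
    _ ≤ D * (C1 * Module.finrank ℚ L) + C2 * Module.finrank ℚ L := by linarith
    _ = (D * C1 + C2) * Module.finrank ℚ L := by ring

end

section

variable {L : Type} [Field L] [AdmissibleAbsValues L]

open Classical in
/-- A sum over a finite set of nonarchimedean absolute values. -/
theorem sum_le_finsum_na {f : AbsoluteValue L ℝ → ℝ} (hf : FS f)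
    (h0 : ∀ v ∈ nonarchAbsVal (K := L), 0 ≤ f v) (T : Finset (AbsoluteValue L ℝ))
    (hT : ∀ v ∈ T, v ∈ nonarchAbsVal (K := L)) :
    ∑ v ∈ T, f v ≤ ∑ᶠ v : nonarchAbsVal (K := L), f v.val := by
  have h4 : ∑ v ∈ T, f v =
      ∑ v ∈ T.attach.image (fun v => (⟨v.1, hT v.1 v.2⟩ : nonarchAbsVal (K := L))),
        f v.val := by
    rw [Finset.sum_image, ← Finset.sum_attach]
    intro a _ b _ hab
    exact Subtype.ext (congrArg (fun z : nonarchAbsVal (K := L) => z.val) hab)
  rw [h4, finsum_eq_sum_of_support_subset (s := hf.toFinset ∪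
    T.attach.image (fun v => (⟨v.1, hT v.1 v.2⟩ : nonarchAbsVal (K := L)))) _ (by
      intro v hv
      rw [Finset.coe_union]
      exact Or.inl (hf.mem_toFinset.2 hv))]
  exact Finset.sum_le_sum_of_subset_of_nonneg Finset.subset_union_right
    fun v _ _ => h0 v.val v.2

/-- The total contact of two different points. -/
theorem exists_sum_ct_le {ι : Type} [Finite ι] {x y : ι → L} (hxy : cr x y ≠ 0) :
    ∃ C : ℝ, 0 ≤ C ∧ ∀ T : Finset (AbsoluteValue L ℝ),
      (∀ v ∈ T, v ∈ nonarchAbsVal (K := L)) → ∑ v ∈ T, ct v x y ≤ C := by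
  have h0 : ∀ v ∈ nonarchAbsVal (K := L), 0 ≤ ct v x y := fun v hv =>
    ct_nonneg (isNonarchimedean v hv) hxy
  exact ⟨∑ᶠ v : nonarchAbsVal (K := L), ct v.val x y, finsum_nonneg fun v => h0 v.val v.2,
    fun T hT => sum_le_finsum_na (FS_ct hxy) h0 T hT⟩

end

end Pool.Agent.Helper21.TG2
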