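import Pool.Agent.Helper29.TG.Df
import Pool.Agent.Helper63.TK.Growth

/-!
# Project TG2: heights of periodic points over all number fields containing `K` (helper21)
-/

set_option autoImplicit false

namespace Pool.Agent.Helper21.TG2

open Height AdmissibleAbsValues MvPolynomial NumberField
open Pool.Agent.Helper36 (step iter iter_zero iter_succ exists_nullstellensatz)
open Pool.Agent.Helper29.TG
open Pool.Agent.Helper30.TP (IsEndo)
open Pool.Agent.Helper63.TK (homog_of_endo growth_aeval_zero)

/-! ### Uniform bounds of the coefficients -/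

section bounds

variable {K : Type} [Field K] [NumberField K]

/-- The archimedean size: the sum over all complex embeddings. -/
noncomputable def houseSum (a : K) : ℝ := ∑ φ : K →+* ℂ, ‖φ a‖

theorem houseSum_nonneg (a : K) : 0 ≤ houseSum a := Finset.sum_nonneg fun _ _ => norm_nonneg _

theorem arch_le_houseSum (a : K) (L : Type) [Field L] [NumberField L] [Algebra K L]
    {w : AbsoluteValue L ℝ} (hw : w ∈ archAbsVal (K := L)) :
    w (algebraMap K L a) ≤ houseSum a := by
  have h1 : IsInfinitePlace w := mem_multisetInfinitePlace.1 hw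
  rw [isInfinitePlace_iff] at h1
  obtain ⟨w', rfl⟩ := h1
  obtain ⟨φ, hφ⟩ := w'.2
  have h2 : w'.val (algebraMap K L a) = ‖(φ.comp (algebraMap K L)) a‖ := by
    rw [← hφ]
    rfl
  rw [h2]
  exact Finset.single_le_sum (f := fun φ : K →+* ℂ => ‖φ a‖) (fun _ _ => norm_nonneg _)
    (Finset.mem_univ _)

theorem nonarch_le_one_of_isIntegral {L : Type} [Field L] [NumberField L]
    {w : AbsoluteValue L ℝ} (hw : w ∈ nonarchAbsVal (K := L)) {a : L} (ha : IsIntegral ℤ a) :
    w a ≤ 1 := by
  have h1 : IsFinitePlace w := hw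
  rw [isFinitePlace_iff] at h1
  obtain ⟨w', rfl⟩ := h1
  obtain ⟨v, hv⟩ := w'.2
  have h2 : w'.val a = ‖FinitePlace.embedding v a‖ := by
    rw [← hv]
    rfl
  rw [h2]
  exact FinitePlace.norm_le_one L v (⟨a, ha⟩ : 𝓞 L)

theorem isIntegral_natCast {L : Type} [Field L] (n : ℕ) : IsIntegral ℤ (n : L) := by
  have h := isIntegral_algebraMap (R := ℤ) (A := L) (x := (n : ℤ))
  rwa [eq_intCast, Int.cast_natCast] at h

theorem exists_common_denominator (s : Finset K) :
    ∃ n : ℕ, 0 < n ∧ ∀ a ∈ s, IsIntegral ℤ ((n : K) * a) := by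
  classical
  induction s using Finset.induction_on with
  | empty => exact ⟨1, one_pos, by simp⟩
  | insert a s ha ih =>
    obtain ⟨n, hn, h⟩ := ih
    obtain ⟨m, hm, h2⟩ : ∃ m : ℕ, 0 < m ∧ IsIntegral ℤ ((m : K) * a) := by
      have h3 : IsAlgebraic ℤ a := by
        have h4 : IsAlgebraic ℚ a := Algebra.IsAlgebraic.isAlgebraic a
        exact (IsFractionRing.isAlgebraic_iff ℤ ℚ K).2 h4
      obtain ⟨y, hy, h5⟩ := h3.exists_integral_multiple
      refine ⟨y.natAbs, Int.natAbs_pos.2 hy, ?_⟩
      rw [zsmul_eq_mul] at h5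
      have h6 : ((y.natAbs : ℕ) : K) = ((|y| : ℤ) : K) := by
        rw [← Int.natCast_natAbs, Int.cast_natCast]
      rcases abs_choice y with h7 | h7
      · rw [h6, h7]
        exact h5
      · rw [h6, h7, Int.cast_neg, neg_mul]
        exact h5.neg
    refine ⟨n * m, Nat.mul_pos hn hm, ?_⟩
    intro b hb
    rcases Finset.mem_insert.1 hb with rfl | hb
    · have h8 : ((n * m : ℕ) : K) * b = (n : K) * ((m : K) * b) := by
        push_cast
        ring
      rw [h8]
      exact (isIntegral_natCast n).mul h2
    · have h8 : ((n * m : ℕ) : K) * b = (m : K) * ((n : K) * b) := by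
        push_cast
        ring
      rw [h8]
      exact (isIntegral_natCast m).mul (h b hb)

/-- The archimedean absolute values of a natural number. -/
theorem arch_natCast {L : Type} [Field L] [NumberField L] {w : AbsoluteValue L ℝ}
    (hw : w ∈ archAbsVal (K := L)) (n : ℕ) : w (n : L) = n := by
  have h1 : IsInfinitePlace w := mem_multisetInfinitePlace.1 hw
  rw [isInfinitePlace_iff] at h1
  obtain ⟨w', rfl⟩ := h1
  obtain ⟨φ, hφ⟩ := w'.2
  have h2 : w'.val (n : L) = ‖φ (n : L)‖ := by
    rw [← hφ]
    rfl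
  rw [h2, map_natCast]
  simp

/-- sums over the archimedean absolute values -/
theorem arch_card (L : Type) [Field L] [NumberField L] :
    ((archAbsVal (K := L)).card : ℝ) = Module.finrank ℚ L := by
  have := totalWeight_eq_finrank L
  unfold totalWeight at this
  exact_mod_cast this

/-- `ls` of `log |n|` restricted to the nonarchimedean absolute values. -/
theorem finsum_log_natCast {L : Type} [Field L] [NumberField L] {n : ℕ} (hn : 0 < n) :
    ∑ᶠ v : nonarchAbsVal (K := L), Real.log (v.val (n : L)) =
      -((Module.finrank ℚ L : ℝ) * Real.log n) := by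
  have hn0 : (n : L) ≠ 0 := Nat.cast_ne_zero.2 hn.ne'
  have h1 := ls_log hn0
  unfold ls at h1
  have h2 : (archAbsVal (K := L)).map (fun v => Real.log (v (n : L))) =
      (archAbsVal (K := L)).map (fun _ => Real.log n) := by
    refine Multiset.map_congr rfl fun v hv => ?_
    rw [arch_natCast hv]
  rw [h2, Multiset.map_const', Multiset.sum_replicate, nsmul_eq_mul, arch_card] at h1
  linarith

end bounds

/-! ### Defects of a form over the extensions -/

section defects

variable {K : Type} [Field K] [NumberField K]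

open Classical in
/-- For a form `Q` over `K` there is a family of error terms, over every number field `L ⊇ K`, with
sum at most `C [L : ℚ]`. -/
theorem exists_error {ι : Type} [Finite ι] (Q : MvPolynomial ι K) :
    ∃ C : ℝ, 0 ≤ C ∧ ∀ (L : Type) [Field L] [NumberField L] [Algebra K L],
      ∃ c : AbsoluteValue L ℝ → ℝ, FS c ∧ (∀ v, Mem v → 0 ≤ c v) ∧
        ls c ≤ C * Module.finrank ℚ L ∧
        (∀ v ∈ nonarchAbsVal (K := L), ∀ m, v ((map (algebraMap K L) Q).coeff m) ≤
          Real.exp (c v)) ∧
        (∀ v, Mem v → ∀ (D : ℕ), Q.IsHomogeneous D → ∀ x : ι → L,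
          v (eval x (map (algebraMap K L) Q)) ≤ Real.exp (c v) * nm v x ^ D) := by
  obtain ⟨n, hn, hint⟩ := exists_common_denominator (Q.support.image fun m => Q.coeff m)
  set B : ℝ := 1 + ∑ m ∈ Q.support, houseSum (Q.coeff m) with hB
  have hB1 : 1 ≤ B := by
    have := Finset.sum_nonneg fun m (_ : m ∈ Q.support) => houseSum_nonneg (Q.coeff m)
    rw [hB]
    linarith
  have hBcard : 1 ≤ (Q.support.card + 1) * B := by
    have h1 : (0 : ℝ) ≤ Q.support.card := Nat.cast_nonneg _
    nlinarith
  refine ⟨Real.log ((Q.support.card + 1) * B) + Real.log n,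
    add_nonneg (Real.log_nonneg hBcard) (Real.log_nonneg (by exact_mod_cast hn)), ?_⟩
  intro L _ _ _
  have hn0 : (n : L) ≠ 0 := Nat.cast_ne_zero.2 hn.ne'
  have hle1 : ∀ v ∈ nonarchAbsVal (K := L), v (n : L) ≤ 1 := fun v hv =>
    nonarch_le_one_of_isIntegral hv (isIntegral_natCast n)
  set c : AbsoluteValue L ℝ → ℝ := fun v =>
    if v ∈ nonarchAbsVal (K := L) then -Real.log (v (n : L))
      else Real.log ((Q.support.card + 1) * B) with hc
  have hcna : ∀ v ∈ nonarchAbsVal (K := L), c v = -Real.log (v (n : L)) := fun v hv => by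
    simp only [hc]
    rw [if_pos hv]
  have hcarch : ∀ v ∈ archAbsVal (K := L), c v = Real.log ((Q.support.card + 1) * B) := by
    intro v hv
    simp only [hc]
    rw [if_neg]
    intro hna
    have h1 := hle1 v hna
    have h2 := nonarch_le_one_of_isIntegral hna (isIntegral_natCast (L := L) 2)
    have h3 := arch_natCast hv 2
    rw [h3] at h2
    norm_num at h2
  have hFS : FS c := by
    have h1 := (FS_log hn0).mul_left (-1)
    refine h1.congr fun v hv => ?_
    rw [hcna v hv]
    ring
  have hc0 : ∀ v, Mem v → 0 ≤ c v := by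
    rintro v (hv | hv)
    · rw [hcarch v hv]
      exact Real.log_nonneg hBcard
    · rw [hcna v hv]
      have := Real.log_nonpos (v.nonneg _) (hle1 v hv)
      linarith
  have hsum : ls c ≤ (Real.log ((Q.support.card + 1) * B) + Real.log n) * Module.finrank ℚ L := by
    unfold ls
    have h1 : (archAbsVal (K := L)).map c =
        (archAbsVal (K := L)).map fun _ => Real.log ((Q.support.card + 1) * B) :=
      Multiset.map_congr rfl fun v hv => hcarch v hv
    have h2 : ∑ᶠ v : nonarchAbsVal (K := L), c v.val = Module.finrank ℚ L * Real.log n := by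
      have h3 : (fun v : nonarchAbsVal (K := L) => c v.val) =
          fun v : nonarchAbsVal (K := L) => -Real.log (v.val (n : L)) :=
        funext fun v => hcna v.val v.2
      rw [h3, finsum_neg_distrib, finsum_log_natCast hn]
      ring
    rw [h1, h2, Multiset.map_const', Multiset.sum_replicate, nsmul_eq_mul, arch_card]
    apply le_of_eq
    ring
  have hcoeff : ∀ v ∈ nonarchAbsVal (K := L), ∀ m, v ((map (algebraMap K L) Q).coeff m) ≤
      Real.exp (c v) := by
    intro v hv m
    rw [coeff_map]
    by_cases hm : m ∈ Q.support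
    · have h1 : IsIntegral ℤ (algebraMap K L ((n : K) * Q.coeff m)) :=
        (hint _ (Finset.mem_image_of_mem _ hm)).map (Algebra.ofId K L |>.restrictScalars ℤ)
      have h2 := nonarch_le_one_of_isIntegral hv h1
      rw [map_mul, map_natCast, map_mul] at h2
      have hpos : 0 < v (n : L) := v.pos hn0
      rw [hcna v hv, Real.exp_neg, Real.exp_log hpos, ← one_div, le_div_iff₀ hpos, mul_comm]
      exact h2
    · rw [notMem_support_iff.1 hm, map_zero, map_zero]
      exact (Real.exp_pos _).le
  refine ⟨c, hFS, hc0, hsum, hcoeff, ?_⟩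
  rintro v hv D hQ x
  have hQ' := hQ.map (algebraMap K L)
  rcases hv with hv | hv
  · have h1 := Df_eval_le v hQ' (B := B) (fun m hm => ?_) x
    · refine h1.trans ?_
      rw [hcarch v hv, Real.exp_log (by linarith)]
      have h2 : ((map (algebraMap K L) Q).support.card : ℝ) ≤ Q.support.card + 1 := by
        have h3 := Finset.card_le_card (support_map_subset (algebraMap K L) Q)
        have h4 : ((map (algebraMap K L) Q).support.card : ℝ) ≤ Q.support.card := by
          exact_mod_cast h3
        linarith
      have h5 : 0 ≤ B * nm v x ^ D := mul_nonneg (by linarith) (pow_nonneg (nm_nonneg v x) _)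
      calc ((map (algebraMap K L) Q).support.card : ℝ) * (B * nm v x ^ D)
          ≤ (Q.support.card + 1) * (B * nm v x ^ D) := mul_le_mul_of_nonneg_right h2 h5
        _ = (Q.support.card + 1) * B * nm v x ^ D := by ring
    · rw [coeff_map]
      refine (arch_le_houseSum _ L hv).trans ?_
      have hm' : m ∈ Q.support := support_map_subset (algebraMap K L) Q hm
      have := Finset.single_le_sum (f := fun m => houseSum (Q.coeff m))
        (fun m _ => houseSum_nonneg _) hm'
      rw [hB]
      linarith
  · exact Df_eval_le_na (isNonarchimedean v hv) hQ' (Real.exp_pos _).le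
      (fun m _ => hcoeff v hv m) x

open Classical in
/-- The sum of the defects over any finite set of nonarchimedean absolute values. -/
theorem exists_sum_df_le {ι : Type} [Finite ι] {Q : MvPolynomial ι K} {D : ℕ}
    (hQ : Q.IsHomogeneous D) :
    ∃ C : ℝ, 0 ≤ C ∧ ∀ (L : Type) [Field L] [NumberField L] [Algebra K L] (x : ι → L),
      x ≠ 0 → eval x (map (algebraMap K L) Q) ≠ 0 →
      ∀ T : Finset (AbsoluteValue L ℝ), (∀ v ∈ T, v ∈ nonarchAbsVal (K := L)) →
        ∑ v ∈ T, df v (map (algebraMap K L) Q) D x ≤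
          D * logHeight x + C * Module.finrank ℚ L := by
  obtain ⟨C, hC0, hC⟩ := exists_error Q
  refine ⟨C, hC0, ?_⟩
  intro L _ _ _ x hx0 hx T hT
  obtain ⟨c, hFS, hc0, hsum, -, hle⟩ := hC L
  have hpos : ∀ v, Mem v → 0 ≤ df v (map (algebraMap K L) Q) D x + c v := by
    intro v hv
    have h1 := hle v hv D hQ x
    have h2 : 0 < nm v x := nm_pos v hx0
    have h3 := Real.log_le_log (v.pos hx) h1
    rw [Real.log_mul (Real.exp_pos _).ne' (pow_pos h2 _).ne', Real.log_exp, Real.log_pow] at h3
    unfold df
    linarith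
  have hFS2 : FS (fun v => df v (map (algebraMap K L) Q) D x + c v) := (FS_df hx hx0).add hFS
  have h1 : ls (fun v => df v (map (algebraMap K L) Q) D x + c v) =
      D * logHeight x + ls c := by
    rw [ls_add (FS_df hx hx0) hFS, ls_df hx hx0]
  have h2 : ∑ v ∈ T, df v (map (algebraMap K L) Q) D x ≤
      ∑ v ∈ T, (df v (map (algebraMap K L) Q) D x + c v) :=
    Finset.sum_le_sum fun v hv => by linarith [hc0 v (Or.inr (hT v hv))]
  have h3 : ∑ v ∈ T, (df v (map (algebraMap K L) Q) D x + c v) ≤
      ls (fun v => df v (map (algebraMap K L) Q) D x + c v) := by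
    unfold ls
    have h4 : ∑ v ∈ T, (df v (map (algebraMap K L) Q) D x + c v) =
        ∑ v ∈ T.attach.image (fun v => (⟨v.1, hT v.1 v.2⟩ : nonarchAbsVal (K := L))),
          (df v.val (map (algebraMap K L) Q) D x + c v.val) := by
      rw [Finset.sum_image, ← Finset.sum_attach]
      intro a _ b _ hab
      exact Subtype.ext (congrArg (fun z : nonarchAbsVal (K := L) => z.val) hab)
    have h5 : ∑ v ∈ T.attach.image (fun v => (⟨v.1, hT v.1 v.2⟩ : nonarchAbsVal (K := L))),
          (df v.val (map (algebraMap K L) Q) D x + c v.val) ≤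
        ∑ᶠ v : nonarchAbsVal (K := L), (df v.val (map (algebraMap K L) Q) D x + c v.val) := by
      classical
      rw [finsum_eq_sum_of_support_subset (s := hFS2.toFinset ∪
        T.attach.image (fun v => (⟨v.1, hT v.1 v.2⟩ : nonarchAbsVal (K := L)))) _ (by
          intro v hv
          rw [Finset.coe_union]
          exact Or.inl (hFS2.mem_toFinset.2 hv))]
      exact Finset.sum_le_sum_of_subset_of_nonneg Finset.subset_union_right
        fun v _ _ => hpos v.val (Or.inr v.2)
    have h6 : 0 ≤ ((archAbsVal (K := L)).map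
        fun v => df v (map (algebraMap K L) Q) D x + c v).sum := by
      refine Multiset.sum_nonneg fun a ha => ?_
      obtain ⟨w, hw, rfl⟩ := Multiset.mem_map.1 ha
      exact hpos w (Or.inl hw)
    rw [h4]
    linarith
  linarith

end defects

/-! ### Periodic points -/

section periodic

variable {K : Type} [Field K] [NumberField K] [Algebra K ℂ]

omit [NumberField K] [Algebra K ℂ] in
/-- The certificate at a point over an extension. -/
theorem cert_eval {d M : ℕ} {F : Fin 3 → MvPolynomial (Fin 3) K}
    {q : Fin 3 × Fin 3 → MvPolynomial (Fin 3) K}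
    (h : ∀ a, ∑ j, q (a, j) * F j = MvPolynomial.X a ^ (M + d)) {L : Type} [Field L] [Algebra K L]
    (y : Fin 3 → L) (a : Fin 3) :
    y a ^ (M + d) = ∑ j, eval y (map (algebraMap K L) (q (a, j))) * step F y j := by
  have h2 := congrArg (aeval y) (h a)
  rw [map_pow, aeval_X, map_sum] at h2
  rw [← h2]
  refine Finset.sum_congr rfl fun j _ => ?_
  rw [map_mul, eval_map, aeval_def, aeval_def]
  rfl

omit [NumberField K] in
theorem step_ne_zeroL {d : ℕ} {F : Fin 3 → MvPolynomial (Fin 3) K}
    (hF : IsEndo d fun i => map (algebraMap K ℂ) (F i)) {L : Type} [Field L] [Algebra K L]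
    {y : Fin 3 → L} (hy : y ≠ 0) : step F y ≠ 0 := by
  obtain ⟨M, q, hq, h⟩ := exists_nullstellensatz (L := ℂ) F (fun i => homog_of_endo hF i)
    (growth_aeval_zero hF)
  intro h0
  apply hy
  funext a
  have h2 := congrArg (aeval y) (h a)
  rw [map_pow, aeval_X, map_sum] at h2
  have h3 : ∀ j, aeval y (q (a, j) * F j) = 0 := fun j => by
    rw [map_mul]
    have h4 : aeval y (F j) = 0 := congrFun h0 j
    rw [h4, mul_zero]
  rw [Finset.sum_congr rfl fun j _ => h3 j, Finset.sum_const_zero] at h2
  exact (pow_eq_zero_iff (by have := hF.two_le; omega)).1 h2.symm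

omit [NumberField K] in
theorem iter_ne_zeroL {d : ℕ} {F : Fin 3 → MvPolynomial (Fin 3) K}
    (hF : IsEndo d fun i => map (algebraMap K ℂ) (F i)) {L : Type} [Field L] [Algebra K L]
    {y : Fin 3 → L} (hy : y ≠ 0) (n : ℕ) : iter F y n ≠ 0 := by
  induction n with
  | zero => exact hy
  | succ n ih =>
    rw [iter_succ]
    exact step_ne_zeroL hF ih

theorem growthL {d : ℕ} {F : Fin 3 → MvPolynomial (Fin 3) K}
    (hF : IsEndo d fun i => map (algebraMap K ℂ) (F i)) :
    ∃ C : ℝ, 0 ≤ C ∧ ∀ (L : Type) [Field L] [NumberField L] [Algebra K L]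
      (y : Fin 3 → L), y ≠ 0 →
      (d : ℝ) * logHeight y ≤ logHeight (step F y) + C * Module.finrank ℚ L := by
  classical
  obtain ⟨M, q, hq, h⟩ := exists_nullstellensatz (L := ℂ) F (fun i => homog_of_endo hF i)
    (growth_aeval_zero hF)
  choose C hC0 hC using fun a : Fin 3 × Fin 3 => exists_error (q a)
  refine ⟨∑ a, C a + Real.log 3, add_nonneg (Finset.sum_nonneg fun a _ => hC0 a)
    (Real.log_nonneg (by norm_num)), ?_⟩
  intro L _ _ _ y hy
  choose c hFS hc0 hsum hcoeff hle using fun a => hC a L
  have hs := step_ne_zeroL hF hy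
  set e : AbsoluteValue L ℝ → ℝ := fun v =>
    ∑ a, c a v + if v ∈ nonarchAbsVal (K := L) then 0 else Real.log 3 with he
  have hFSe : FS e := by
    refine (FS.sum Finset.univ fun a _ => hFS a).congr fun v hv => ?_
    simp only [he]
    rw [if_pos hv, add_zero]
  have hlse : ls e ≤ (∑ a, C a + Real.log 3) * Module.finrank ℚ L := by
    have h1 : FS (fun v : AbsoluteValue L ℝ =>
        if v ∈ nonarchAbsVal (K := L) then (0 : ℝ) else Real.log 3) := by
      refine FS.zero.congr fun v hv => ?_
      rw [if_pos hv]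
    have h2 : ls e = ls (fun v => ∑ a, c a v) + ls (fun v : AbsoluteValue L ℝ =>
        if v ∈ nonarchAbsVal (K := L) then (0 : ℝ) else Real.log 3) :=
      ls_add (FS.sum Finset.univ fun a _ => hFS a) h1
    have h3 : ls (fun v : AbsoluteValue L ℝ =>
        if v ∈ nonarchAbsVal (K := L) then (0 : ℝ) else Real.log 3) ≤
        Real.log 3 * Module.finrank ℚ L := by
      unfold ls
      have h4 : ∑ᶠ v : nonarchAbsVal (K := L),
          (if v.val ∈ nonarchAbsVal (K := L) then (0 : ℝ) else Real.log 3) = 0 := by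
        rw [finsum_congr fun v : nonarchAbsVal (K := L) => if_pos v.2]
        exact finsum_zero
      have h5 : ((archAbsVal (K := L)).map fun v =>
          if v ∈ nonarchAbsVal (K := L) then (0 : ℝ) else Real.log 3).sum ≤
          (archAbsVal (K := L)).card • Real.log 3 := by
        have h6 := Multiset.sum_le_card_nsmul ((archAbsVal (K := L)).map fun v =>
          if v ∈ nonarchAbsVal (K := L) then (0 : ℝ) else Real.log 3) (Real.log 3) (by
            intro x hx
            obtain ⟨w, hw, rfl⟩ := Multiset.mem_map.1 hx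
            split_ifs
            · exact Real.log_nonneg (by norm_num)
            · exact le_rfl)
        rwa [Multiset.card_map] at h6
      rw [h4, add_zero]
      refine h5.trans ?_
      rw [nsmul_eq_mul, arch_card, mul_comm]
    rw [h2, ls_sum Finset.univ fun a _ => hFS a, add_mul, Finset.sum_mul]
    exact add_le_add (Finset.sum_le_sum fun a _ => hsum a) h3
  have hloc : ∀ v : AbsoluteValue L ℝ, Mem v →
      (d : ℝ) * Real.log (nm v y) ≤ Real.log (nm v (step F y)) + e v := by
    intro v hv
    have hn0 : 0 < nm v y := nm_pos v hy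
    have hs0 : 0 < nm v (step F y) := nm_pos v hs
    obtain ⟨i, hi0, hi⟩ := exists_nm_eq v hy
    have hterm : ∀ j, v (eval y (map (algebraMap K L) (q (i, j))) * step F y j) ≤
        Real.exp (∑ a, c a v) * nm v y ^ M * nm v (step F y) := by
      intro j
      rw [map_mul]
      have h1 := hle (i, j) v hv M (hq _) y
      have h2 : Real.exp (c (i, j) v) ≤ Real.exp (∑ a, c a v) :=
        Real.exp_le_exp.2 (Finset.single_le_sum (f := fun a => c a v)
          (fun a _ => hc0 a v hv) (Finset.mem_univ _))
      refine mul_le_mul (h1.trans (mul_le_mul_of_nonneg_right h2 (pow_nonneg hn0.le _)))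
        (le_nm v _ j) (v.nonneg _) ?_
      exact mul_nonneg (Real.exp_pos _).le (pow_nonneg hn0.le _)
    have hX : 0 < Real.exp (∑ a, c a v) * nm v y ^ M * nm v (step F y) :=
      mul_pos (mul_pos (Real.exp_pos _) (pow_pos hn0 _)) hs0
    have h1 : v (y i ^ (M + d)) ≤
        (if v ∈ nonarchAbsVal (K := L) then 1 else 3) *
          (Real.exp (∑ a, c a v) * nm v y ^ M * nm v (step F y)) := by
      rw [cert_eval h y i]
      split_ifs with hna
      · rw [one_mul]
        obtain ⟨j, hj, h3⟩ := IsNonarchimedean.finset_image_add_of_nonempty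
          (isNonarchimedean v hna)
          (fun j => eval y (map (algebraMap K L) (q (i, j))) * step F y j)
          (Finset.univ_nonempty (α := Fin 3))
        exact h3.trans (hterm j)
      · refine (v.sum_le _ _).trans ?_
        refine (Finset.sum_le_card_nsmul _ _ _ fun j _ => hterm j).trans ?_
        rw [nsmul_eq_mul, Finset.card_univ, Fintype.card_fin]
        norm_num
    have h2 : Real.log (if v ∈ nonarchAbsVal (K := L) then (1 : ℝ) else 3) =
        if v ∈ nonarchAbsVal (K := L) then (0 : ℝ) else Real.log 3 := by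
      split_ifs
      · exact Real.log_one
      · rfl
    have h3 : (0 : ℝ) < if v ∈ nonarchAbsVal (K := L) then (1 : ℝ) else 3 := by
      split_ifs <;> norm_num
    rw [map_pow, ← hi] at h1
    have h4 := Real.log_le_log (pow_pos hn0 _) h1
    rw [Real.log_pow, Real.log_mul h3.ne' hX.ne', h2,
      Real.log_mul (mul_pos (Real.exp_pos _) (pow_pos hn0 _)).ne' hs0.ne',
      Real.log_mul (Real.exp_pos _).ne' (pow_pos hn0 _).ne', Real.log_exp, Real.log_pow] at h4
    push_cast at h4
    simp only [he]
    linarith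
  have h1 := ls_mono ((FS_nm hy).mul_left (d : ℝ)) ((FS_nm hs).add hFSe) hloc
  rw [ls_mul_left, ls_nm hy, ls_add (FS_nm hs) hFSe, ls_nm hs] at h1
  linarith

theorem exists_ht_bound {d : ℕ} {F : Fin 3 → MvPolynomial (Fin 3) K}
    (hF : IsEndo d fun i => map (algebraMap K ℂ) (F i)) :
    ∃ C : ℝ, 0 ≤ C ∧ ∀ (L : Type) [Field L] [NumberField L] [Algebra K L]
      (w : Fin 3 → L) (N : ℕ) (γ : L), w ≠ 0 → 0 < N →
      iter F w N = γ • w → logHeight w ≤ C * Module.finrank ℚ L := by
  obtain ⟨C, hC0, hC⟩ := growthL hF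
  refine ⟨C, hC0, ?_⟩
  intro L _ _ _ w N γ hw hN hiter
  have hd : (2 : ℝ) ≤ d := by exact_mod_cast hF.two_le
  set f : ℝ := C * Module.finrank ℚ L with hf
  have hf0 : 0 ≤ f := mul_nonneg hC0 (Nat.cast_nonneg _)
  have key : ∀ n : ℕ, (d : ℝ) ^ n * (logHeight w - f) ≤ logHeight (iter F w n) - f := by
    intro n
    induction n with
    | zero => simp [iter_zero]
    | succ n ih =>
      have h1 := hC L (iter F w n) (iter_ne_zeroL hF hw n)
      rw [← iter_succ, ← hf] at h1
      have h2 : (d : ℝ) * ((d : ℝ) ^ n * (logHeight w - f)) ≤ d * (logHeight (iter F w n) - f) :=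
        mul_le_mul_of_nonneg_left ih (by linarith)
      have h3 : 2 * f ≤ d * f := mul_le_mul_of_nonneg_right hd hf0
      rw [pow_succ]
      linarith
  have hγ : γ ≠ 0 := by
    rintro rfl
    rw [zero_smul] at hiter
    exact iter_ne_zeroL hF hw N hiter
  have h1 := key N
  rw [hiter, logHeight_smul_eq_logHeight _ hγ] at h1
  by_contra hcon
  push Not at hcon
  have h2 : (2 : ℝ) ≤ (d : ℝ) ^ N := by
    calc (2 : ℝ) ≤ d := hd
      _ = (d : ℝ) ^ 1 := (pow_one _).symm
      _ ≤ (d : ℝ) ^ N := pow_le_pow_right₀ (by linarith) hN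
  nlinarith

end periodic

end Pool.Agent.Helper21.TG2
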